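import Pool.Agent.Lib.MP_0d8e88_lc.AllK.Fwd
import Pool.Agent.Lib.MP_0d8e88_lc.AllK.Bwd
import Pool.Agent.Lib.MP_0d8e88_lc.AllK.Red

/-!
Recognition of bar `k`-visibility graphs is NP-complete for every `k ≥ 1`.
-/

namespace Pool.Agent.Results.MP_0d8e88_lc.NPCompleteAll

open Pool.Agent.Lib.MP_0d8e88_lc

theorem result : ∀ k : ℕ, 1 ≤ k → N793a5b8e.IsCompleteFor N68a2faeb.NP (barLang k) := by
  intro k hk
  obtain ⟨q, rfl⟩ : ∃ q, k = q + 1 := ⟨k - 1, by omega⟩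
  refine AllK.hardK q (fun _ hS h => AllK.forward hS h)
    (fun _ hS _ _ _ H => AllK.backward hS (fun p hp => ?_) H)
  obtain ⟨n, hn⟩ := AllK.pin_real hS AllK.stOK_zero p hp
  exact ⟨hn.nodup, hn.len, fun v hv => (hn.mem v hv).1⟩

end Pool.Agent.Results.MP_0d8e88_lc.NPCompleteAll
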